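import Pool.Agent.U449.BV.G
import Pool.Agent.N407.BZ.Near
import Pool.Agent.Results.MP_fcb754_nt.AlmostAllWeights

/-!
# The Lindelöf-type bound for the Barnes multiple zeta function near values of functions of two variables on arbitrary sets

For every `d ≥ 1` and almost every `v ∈ ℝ^d` the following holds for all `r ≥ 2`, all positive weights `w` with
`ℚ w₁ + ⋯ + ℚ w_r = ℚ v₁ + ⋯ + ℚ v_d` (so that the dimension is `d`) and all `a > 0`, `σ₁`, `η, κ ≥ 0` and `δ ≤ 1` with
`max (1 - 2 η, 0) + κ < δ`. Let `f(x, y)` be an integer polynomial with a monomial which contains both variables, `A`, `B`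
ARBITRARY finite sets of at least `X ^ δ` integers, and `g`, `h` ARBITRARY real functions such that
`|f(a, b) + g(a) + h(b)| ≤ X` on `A × B`. For all the pairs `(a, b)`, apart from a proportion of at most `X ^ (-ρ)`, the bound
`|ζ_r(σ + it; a, w)| ≤ t ^ η` holds for ALL `t ≥ 2` with `|t - (f(a, b) + g(a) + h(b))| ≤ X ^ κ` and all `σ ∈ [r - d/2, σ₁]`. The same
holds, with `X = p`, for the least residues of `f(a, b) + g(a) + h(b)` modulo a prime `p`, where `A`, `B` are arbitrary sets of
residues, and more generally for the values `F(a, b)` of all functions of two variables with few coincidences (`Rare`). For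
the residues every `η > 0` is admissible: `A`, `B` are arbitrary sets of more than `p ^ (1 - 2 η + ε)` residues.

The number of the `n ≤ X` such that the bound `t ^ η` fails at some `t ∈ [n, n + 1]` is `O(X ^ (1 - 2 η + ε))` (starting library,
`Pool.Agent.N407.BZ.ff_count`, with the mean square for almost all weights). Since the sets and functions are arbitrary, a value
can be taken by very many pairs, and so this does not give the result directly. New: the inequality of Cauchy and Schwarz; for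
most pairs `a, a'` the difference `F(a, b) - F(a', b)` is small for few `b` (`Pool.Agent.U449.BV`).
-/

set_option autoImplicit false

namespace Pool.Agent.Results.MP_fcb754_nt.MixedPolynomials

open Pool.Agent.U449.BV (Rare OnProducts on_products_floor polys residues)
open Pool.Agent.Results.MP_fcb754_nt.AlmostAllWeights (IsBarnesZeta weightDim exists_zeta zeta_eq weightDim_eq span_of_matrix)

/-- `|Z(σ + it)| ≤ t ^ η` for all `t ≥ 2` with `|t - x| ≤ W` and all `σ ∈ [σ₀, σ₁]` -/
def Near (Z : ℂ → ℂ) (σ₀ σ₁ η : ℝ) (W x : ℝ) : Prop :=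
  ∀ t σ : ℝ, 2 ≤ t → |t - x| ≤ W → σ₀ ≤ σ → σ ≤ σ₁ → ‖Z (σ + t * Complex.I)‖ ≤ t ^ η

/-- The bound `t ^ η` near almost all values of functions of two variables with few coincidences: with `d` the dimension of
the weights, for all `a > 0`, all `σ₁` and all `η, κ ≥ 0`, the property `Near` of `ζ_r(·, a, w)` on `[r - d/2, σ₁]`, with
windows of length `X ^ κ`, holds for almost all values, on arbitrary finite sets of at least `X ^ δ` elements,
`max (1 - 2 η, 0) + κ < δ ≤ 1` (`OnProducts`). -/
def SmallNearValues (r : ℕ) (w : Fin r → ℝ) : Prop :=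
  ∀ (a : ℝ) (Z : ℂ → ℂ), 0 < a → IsBarnesZeta r a w Z → ∀ σ₁ η κ : ℝ, 0 ≤ η → 0 ≤ κ →
    OnProducts (max (1 - 2 * η) 0 + κ) κ (Near Z ((r : ℝ) - (weightDim r w : ℝ) / 2) σ₁ η)

theorem small_of_good {d : ℕ} {v : Fin d → ℝ} (hv : LinearIndependent ℚ v)
    (hG : Pool.Agent.Y616.BM.Good v) {r : ℕ} (hr : 2 ≤ r) {w : Fin r → ℝ} (hw : ∀ i, 0 < w i)
    (hspan : Submodule.span ℚ (Set.range w) = Submodule.span ℚ (Set.range v)) : SmallNearValues r w := by
  intro a Z ha hZ σ₁ η κ hη hκ
  rw [weightDim_eq hv hspan]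
  obtain ⟨c, hc⟩ := Pool.Agent.H131R5.BZ.exists_taylor a hw
  have h1 := on_products_floor (Bad := Pool.Agent.N407.BZ.BadAt a w c ((r : ℝ) - d / 2) σ₁ η)
    (s := max (1 - 2 * η) 0) (κ := κ) (le_max_right _ _) hκ (fun s' hs' => by
      obtain ⟨K, -, hK⟩ := Pool.Agent.N407.BZ.ff_count hv hG hr ha hw hspan hc σ₁ hη
        (lt_of_le_of_lt (le_max_right _ _) hs') (lt_of_le_of_lt (le_max_left _ _) hs')
      exact ⟨K, hK⟩)
  refine h1.mono fun W x _ hg t σ ht hw' h2 h3 => ?_
  rw [zeta_eq ha hw hc hZ σ (by linarith)]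
  by_contra h4
  exact hg t (by linarith) hw' (Pool.Agent.N407.BZ.bad_floor ht h2 h3 (not_le.1 h4)).2

/-- (1) The Barnes multiple zeta function exists (as defined in `AlmostAllWeights`) for all `r`, `a > 0` and positive weights `w`.
(2) For every `d` and almost every `v ∈ ℝ^d`: all positive weights `w`, in any number `r ≥ 2`, which span the same `ℚ`-space as
`v` have dimension `d` and satisfy `SmallNearValues`. (3) For `2 ≤ r` and every rational `r × d` matrix `B` of rank `d`, for
almost every `v ∈ ℝ^d` this holds for the weights `w = B v`, if they are positive. (4) Almost all positive `w ∈ ℝ^r`, `r ≥ 2`,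
have dimension `r` and satisfy `SmallNearValues`. (5) Coincidences are rare for `f(a, b) + g(a) + h(b)`, where `f` is any
integer polynomial with a monomial which contains both variables, and `g` and `h` are arbitrary real functions, on arbitrary
finite sets of integers. (6) The same is true of the least residues of `f(a, b) + g(a) + h(b)` modulo a prime `p`. -/
theorem result :
    (∀ (r : ℕ) (a : ℝ) (w : Fin r → ℝ), 0 < a → (∀ i, 0 < w i) →
      ∃ Z : ℂ → ℂ, IsBarnesZeta r a w Z) ∧
    (∀ d : ℕ, ∀ᵐ v : Fin d → ℝ, LinearIndependent ℚ v ∧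
      ∀ (r : ℕ) (w : Fin r → ℝ), 2 ≤ r → (∀ i, 0 < w i) →
        Submodule.span ℚ (Set.range w) = Submodule.span ℚ (Set.range v) →
        weightDim r w = d ∧ SmallNearValues r w) ∧
    (∀ r d : ℕ, 2 ≤ r → ∀ B : Matrix (Fin r) (Fin d) ℚ, Function.Injective B.mulVec →
      ∀ᵐ v : Fin d → ℝ, (∀ i, 0 < (B.map (fun q : ℚ => (q : ℝ))).mulVec v i) →
        weightDim r ((B.map (fun q : ℚ => (q : ℝ))).mulVec v) = d ∧
          SmallNearValues r ((B.map (fun q : ℚ => (q : ℝ))).mulVec v)) ∧
    (∀ r : ℕ, 2 ≤ r → ∀ᵐ w : Fin r → ℝ, (∀ i, 0 < w i) →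
      weightDim r w = r ∧ SmallNearValues r w) ∧
    (∀ (d : ℕ) (f : MvPolynomial (Fin 2) ℤ), f.totalDegree ≤ d → (∃ m ∈ f.support, m 0 ≠ 0 ∧ m 1 ≠ 0) →
      ∀ (g h : ℤ → ℝ) (A B : Finset ℤ),
        Rare d A B (fun a b => ((MvPolynomial.eval ![a, b] f : ℤ) : ℝ) + g a + h b)) ∧
    ∀ (p : ℕ) [Fact p.Prime] (d : ℕ) (f : MvPolynomial (Fin 2) (ZMod p)), f.totalDegree ≤ d →
      (∃ m ∈ f.support, m 0 ≠ 0 ∧ m 1 ≠ 0) → ∀ (g h : ZMod p → ZMod p) (A B : Finset (ZMod p)),
        Rare d A B (fun a b => (((MvPolynomial.eval ![a, b] f + g a + h b).val : ℕ) : ℝ)) := by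
  refine ⟨exists_zeta, fun d => ?_, fun r d hr B hB => ?_, fun r hr => ?_, polys, residues⟩
  · filter_upwards [Pool.Agent.Y616.BM.ae_good d, Pool.Agent.Y616.BM.ae_indep d] with v hG hv
    exact ⟨hv, fun r w hr hw hspan => ⟨weightDim_eq hv hspan, small_of_good hv hG hr hw hspan⟩⟩
  · filter_upwards [Pool.Agent.Y616.BM.ae_good d, Pool.Agent.Y616.BM.ae_indep d] with v hG hv hw
    have hspan := span_of_matrix B hB v
    exact ⟨weightDim_eq hv hspan, small_of_good hv hG hr hw hspan⟩
  · filter_upwards [Pool.Agent.Y616.BM.ae_good r, Pool.Agent.Y616.BM.ae_indep r] with v hG hv hw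
    exact ⟨weightDim_eq hv rfl, small_of_good hv hG hr hw rfl⟩

end Pool.Agent.Results.MP_fcb754_nt.MixedPolynomials
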